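import Mathlib
import Pool.Agent.helper59.FI4.Defs

/-!
# Project fi4 (MP_baa4d7_al), block K: the number `l(H, B)` as a natural number, and the statements KQ, LBN, OPD

`lb p M χ H` is the number of irreducible Brauer characters of the blocks `b` of `H` with `b^G = B`, `B` the block of `χ`:
the trace of the idempotent matrix `EE p H` on `Blk M χ H`; `(lb p M χ H : ℂ) = LL p M χ H` (LBN).
-/

set_option autoImplicit false

namespace Pool.Agent.FI4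

open Pool.Agent.helper58.DC Pool.Agent.DI Pool.Agent.GR Pool.Agent.OB Pool.Agent.DR Pool.Agent.FI Pool.Agent.FI3

section

variable {G : Type} [Group G]

/-- The number of irreducible Brauer characters in the blocks `b` of `H` with `b^G = B`, `B` the block of `χ`. -/
noncomputable def lb (p : ℕ) (M : Ideal (integralClosure ℤ ℂ)) (χ : G → ℂ) (H : Subgroup G) : ℕ :=
  ⌊(∑ᶠ ψ ∈ Blk M χ H, EE p H ψ ψ).re⌋₊

/-- The number of irreducible Brauer characters in the set `S` of characters of `H` (a union of blocks). -/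
noncomputable def ls (p : ℕ) (H : Subgroup G) (S : Set (G → ℂ)) : ℕ :=
  ⌊(∑ᶠ ψ ∈ S, EE p H ψ ψ).re⌋₊

theorem lb_eq_ls (p : ℕ) (M : Ideal (integralClosure ℤ ℂ)) (χ : G → ℂ) (H : Subgroup G) :
    lb p M χ H = ls p H (Blk M χ H) := rfl

end

/-- **KQ**. The congruence. `R = O_p(G)`, all heights in `B` are zero, `D` abelian. -/
def KQ_stmt : Prop :=
  ∀ (p : ℕ) (M : Ideal (integralClosure ℤ ℂ)), Setup p M → ∀ (G : Type) [Group G] [Finite G]
    (D : Subgroup G) (x : G) (θ χ : G → ℂ), Rt p M D x θ χ →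
    (∀ ψ ∈ Blk M χ ⊤, ∀ a : ℕ, Nat.card D = p ^ a → Defect p ⊤ ψ a) →
    ∀ R : Subgroup G, IsOp p ⊤ R → R ≤ D → R ≠ D →
    (p : ℤ) * Nat.card G ∣ ∑ᶠ C ∈ {C : Finset (Subgroup G) | NCh p ⊤ R C},
      (-1) ^ (C.card + 1) * ((Nat.card (nrm C) : ℤ) * (lb p M χ (nrm C) : ℤ))

/-- **LBN**. `lb` and `ls` are the traces. -/
def LBN_stmt : Prop :=
  ∀ (p : ℕ) (M : Ideal (integralClosure ℤ ℂ)), Setup p M → ∀ (G : Type) [Group G] [Finite G]
    (H : Subgroup G),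
    (∀ S : Set (G → ℂ), BC M H S → (ls p H S : ℂ) = ∑ᶠ ψ ∈ S, EE p H ψ ψ ∧ (S.Nonempty → 1 ≤ ls p H S)) ∧
    ∀ χ : G → ℂ, BC M H (Blk M χ H) ∧ (lb p M χ H : ℂ) = ∑ᶠ ψ ∈ Blk M χ H, EE p H ψ ψ ∧
      ((Blk M χ H).Nonempty → 1 ≤ lb p M χ H)

/-- **OPD**. `O_p(G)` is contained in the defect group. -/
def OPD_stmt : Prop :=
  ∀ (p : ℕ) (M : Ideal (integralClosure ℤ ℂ)), Setup p M → ∀ (G : Type) [Group G] [Finite G]
    (D : Subgroup G) (x : G) (θ χ : G → ℂ), Rt p M D x θ χ → ∀ R : Subgroup G, IsOp p ⊤ R → R ≤ D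

/-- `lb` is `LL`. -/
theorem lb_eq_LL (hLBN : LBN_stmt) (p : ℕ) (M : Ideal (integralClosure ℤ ℂ)) (hM : Setup p M) (G : Type)
    [Group G] [Finite G] (H : Subgroup G) (χ : G → ℂ) : (lb p M χ H : ℂ) = LL p M χ H :=
  ((hLBN p M hM G H).2 χ).2.1

/-- **LLN** from LBN. -/
theorem LLN_of (hLBN : LBN_stmt) : LLN_stmt := by
  intro p M hM G _ _ χ H
  exact ⟨lb p M χ H, (lb_eq_LL hLBN p M hM G H χ).symm, ((hLBN p M hM G H).2 χ).2.2⟩

/-- **DV4** from KQ and LBN. -/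
theorem DV4_of (hLBN : LBN_stmt) (hKQ : KQ_stmt) : DV4_stmt := by
  intro p M hM G _ _ D x θ χ hRt hht R hR hRD hne
  obtain ⟨m, hm⟩ := hKQ p M hM G D x θ χ hRt hht R hR hRD hne
  refine ⟨m, ?_⟩
  have hfin : ({C : Finset (Subgroup G) | NCh p ⊤ R C}).Finite := Set.toFinite _
  have h1 : ∑ᶠ C ∈ {C : Finset (Subgroup G) | NCh p ⊤ R C},
      (-1 : ℂ) ^ (C.card + 1) * ((Nat.card (nrm C) : ℂ) * LL p M χ (nrm C)) =
      ((∑ᶠ C ∈ {C : Finset (Subgroup G) | NCh p ⊤ R C},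
      (-1) ^ (C.card + 1) * ((Nat.card (nrm C) : ℤ) * (lb p M χ (nrm C) : ℤ)) : ℤ) : ℂ) := by
    rw [finsum_mem_eq_finite_toFinset_sum _ hfin, finsum_mem_eq_finite_toFinset_sum _ hfin]
    push_cast
    refine Finset.sum_congr rfl fun C _ => ?_
    rw [lb_eq_LL hLBN p M hM G (nrm C) χ]
  rw [h1, hm]
  push_cast
  ring

end Pool.Agent.FI4
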