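import Mathlib
import Pool.Agent.helper70.FI4.DefsK
import Pool.Agent.helper22.FI3.SpecCQ
import Pool.Agent.helper70.FI.SpecQ1
import Pool.Agent.helper59.FI.SpecB2

/-!
# Project fi4 (MP_baa4d7_al), block K: Knörr-Robinson, quotient by `O_p(G)`, congruence modulo `p`

OUTPUT: `KRG`, `LLN`, `DV4` of `helper59/FI4/Defs` (`LLN_of`, `DV4_of` in `DefsK` from `LBN`, `KQ`), and `OPD`.

RULES. File `Pool/Agent/<seat>/FI4/XXX.lean` (directory FI4) with

  import Pool.Agent.helper70.FI4.SpecK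
  set_option autoImplicit false
  namespace Pool.Agent.FI4
  open Pool.Agent.helper58.DC Pool.Agent.DI Pool.Agent.GR Pool.Agent.OB Pool.Agent.DR Pool.Agent.FI Pool.Agent.FI3
  theorem XXX (hYYY : YYY_stmt) ... : XXX_stmt := ...
  end Pool.Agent.FI4

auxiliary lemmas prefixed `XXX_`, no sorry, no double quotes in the file, no convert / congr!. Any statement of this file, of `DefsK`, of the specs of projects
fi and fi3 (`helper70/FI/SpecQ1`, `helper58/FI/SpecC`, `helper83/FI/SpecR`, `helper22/FI/SpecA`, `helper59/FI/SpecB2`, `helper22/FI3/SpecCQ`) and of the older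
specs (GR: `helper83/GR/Spec`; DI: `helper81/DI/Spec{A,B,C}`; DR: `helper35/DR/SpecC`; OB: `helper22/OB/SpecD`; DC) may be taken as a hypothesis (no circles); proved rows may be imported.

Notation: `lb p M χ H` = `l(H, B)` (trace of `EE p H` on `Blk M χ H`), `ls p H S` the same for a union `S` of blocks (`DefsK`); `EE p H ψ ψ' = |H|⁻¹ ∑ ψ v * ψ' v⁻¹` over the
`p`-regular `v ∈ H`; `Sf S a b = ∑ᶠ ψ ∈ S, ψ a * ψ b⁻¹`; `Blk M χ H = {ψ ∈ IrrOn H | Induces M ψ χ}`; `BC M H S`: `S` is a union of blocks of `H`; `PEl`, `PReg` `p`-elements, `p`-regular elements;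
`NCh p L P C` normal chains, `PCh p L P C` all chains of `p`-subgroups of `L` with smallest term `P`; `nrm C` normaliser of a chain; `nz`, `cz`, `Cz H y = H ⊓ centralizer {y}`;
`IsOp p L P`: `P = O_p(L)`; `cSum p L P N g = ∑ over PCh of (-1)^(|C|+1) g (N ⊓ nrm C)`; `omega ψ g = (∑ᶠ x ∈ conjugatesOf g, ψ x) / ψ 1`.
-/

set_option autoImplicit false

namespace Pool.Agent.FI4

open Pool.Agent.helper58.DC Pool.Agent.DI Pool.Agent.GR Pool.Agent.OB Pool.Agent.DR Pool.Agent.FI Pool.Agent.FI3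

section

variable {G : Type} [Group G] {Gb : Type} [Group Gb]

/-- `π : G → Gb` is surjective with kernel `R`, an abelian `p`-group. -/
structure Qn (p : ℕ) (R : Subgroup G) (π : G →* Gb) : Prop where
  pg : IsPGroup p R
  com : ∀ a ∈ R, ∀ b ∈ R, a * b = b * a
  sur : Function.Surjective π
  ker : ∀ g : G, π g = 1 ↔ g ∈ R

/-- The characters `f` of `Hb` such that the inflation `f ∘ π` is in `S`. -/
def dn (π : G →* Gb) (Hb : Subgroup Gb) (S : Set (G → ℂ)) : Set (Gb → ℂ) :=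
  {f | f ∈ IrrOn Hb ∧ (fun g => f (π g)) ∈ S}

/-- The characters of `N` whose block induces to a block with a character in `X`. -/
def BX (M : Ideal (integralClosure ℤ ℂ)) (X : Set (G → ℂ)) (N : Subgroup G) : Set (G → ℂ) :=
  {f | f ∈ IrrOn N ∧ ∃ χ' ∈ X, Induces M f χ'}

end

/-! ## 1. Knörr-Robinson -/

/-- **KRA** (short to medium; from B2, PPT, BR2, LBN). Sections. Proof: `N`, `B = Blk M χ N` (finite, B2). For `ψ ∈ B`: `∑_{g ∈ N} ψ g * ψ g⁻¹ = |N|` (B2), so `|N| |B| = ∑_{g ∈ N} Sf B g g`, by PPT (`F g = Sf B g g`) the sum over the `p`-elements `y ∈ N` and the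
`p`-regular `v ∈ Cz N y` of `Sf B (y v) (y v) = Sf (Blk M χ (Cz N y)) v v` (BR2), and `∑_v Sf (Blk M χ (Cz N y)) v v = |Cz N y| * ∑_{ψ ∈ Blk M χ (Cz N y)} EE p (Cz N y) ψ ψ` (exchange the finite sums), LBN. Uses: B2, PPT, BR2, LBN. -/
def KRA_stmt : Prop :=
  ∀ (p : ℕ) (M : Ideal (integralClosure ℤ ℂ)), Setup p M → ∀ (G : Type) [Group G] [Finite G]
    (χ : G → ℂ) (N : Subgroup G),
    (Nat.card N : ℂ) * ((Blk M χ N).ncard : ℂ) = ∑ᶠ y ∈ {y : G | y ∈ N ∧ PEl p y},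
      (Nat.card (Cz N y) : ℂ) * (lb p M χ (Cz N y) : ℂ)

/-- **KRB** (short to medium; from KRA, QPR of GR). Cancellation. Proof: insert KRA for `N = nrm C` (`⊤ ⊓ nrm C = nrm C`) in the left side (in `ℂ`, then `Int.cast_injective`), exchange the finite sums over `C` and `y`. For fixed `y` the sum over the `C` with `PCh p ⊤ ⊥ C`, `y ∈ nrm C`.
`y = 1`: `Cz N 1 = N` gives the right side. `y ≠ 1`: it is `0` by QPR with `L = ⊤`, `Y = zpowers y` (a `p`-group, `≠ ⊥`), `D = centralizer {y}`, `x = y`, `F K = |K| * lb p M χ K` (`Y ≤ nrm C ↔ y ∈ nrm C`; `y ∈ nz Y`; `D ≤ nz Y`, `Y ≤ D`; `D ⊓ nrm C = Cz (nrm C) y`). Uses: KRA, QPR. -/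
def KRB_stmt : Prop :=
  ∀ (p : ℕ) (M : Ideal (integralClosure ℤ ℂ)), Setup p M → ∀ (G : Type) [Group G] [Finite G]
    (χ : G → ℂ),
    cSum p (⊤ : Subgroup G) ⊥ ⊤ (fun N => (Nat.card N : ℤ) * ((Blk M χ N).ncard : ℤ)) =
      cSum p (⊤ : Subgroup G) ⊥ ⊤ (fun N => (Nat.card N : ℤ) * (lb p M χ N : ℤ))

/-! **KRG** (statement in `helper59/FI4/Defs`; short; from KRB, FNO, LBN). Proof: FNO (`L = ⊤`, `P = ⊥`, `N = ⊤`) turns the two sides of KRB into sums over the normal chains (`⊤ ⊓ nrm C = nrm C`); cast to `ℂ`, `(lb p M χ N : ℂ) = LL p M χ N` (`lb_eq_LL` in `DefsK`). Uses: KRB, FNO, LBN. -/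

/-- **KDV** (short; from KRG, JT0, LBN; the theorem `Pool.Agent.FI.Fin_div` of `Pool/Agent/helper12/FI/Fin.lean` is to be imported). The congruence modulo `p` for one block. Proof: Fin_div with `c = 1`: `p` divides `∑ᶠ d, altSum`; JT0 (`helper22/FI3/SpecCQ`): `|G| ∑ᶠ d, altSum` is the sum over the
normal chains with `(Blk M χ (nrm C)).ncard`; by KRG and `lb_eq_LL` (cast to `ℂ`, injective) it is the sum with `lb`. Uses: KRG, JT0, LBN. -/
def KDV_stmt : Prop :=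
  ∀ (p : ℕ) (M : Ideal (integralClosure ℤ ℂ)), Setup p M → ∀ (G : Type) [Group G] [Finite G],
    IsOp p (⊤ : Subgroup G) ⊥ → ∀ χ ∈ Irr G, ∀ D : Subgroup G, Pool.Agent.MAP.DefectGroup p M χ D →
    Pool.Agent.MAPW.CentreOut p 1 D →
    (p : ℤ) * Nat.card G ∣ ∑ᶠ C ∈ {C : Finset (Subgroup G) | NCh p ⊤ ⊥ C},
      (-1) ^ (C.card + 1) * ((Nat.card (nrm C) : ℤ) * (lb p M χ (nrm C) : ℤ))

/-- **KUN** (short to medium; from LBN, BCL, IM of DC, B2). Sum over several blocks. Proof: induction on the number of elements of the finite set `X` (B2: `Irr G` is finite). `X = ∅`: `BX = ∅`, `ls = 0`. Otherwise let `χ₀ ∈ X`, `X' = {χ' ∈ X | ¬ Induces M χ' χ₀}` (smaller; again closed). For every `N`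
the set `BX M X N` is the disjoint union of `Blk M χ₀ N` and `BX M X' N` (`Induces M f χ'`, `Induces M χ' χ₀` give `Induces M f χ₀`; a function in both would give `Induces M χ' χ₀` for some `χ' ∈ X'`: IM of DC, symmetric and transitive), both are unions of blocks (BCL; `BC.closed` for `BX`: if `ψ ∈ BX`, `ψ' ∈ IrrOn N`
has the same central character then `Induces M ψ' χ' ↔ Induces M ψ χ'` by BCL for `Blk M χ' N`), so `ls p N (BX M X N) = lb p M χ₀ N + ls p N (BX M X' N)` by LBN (finite sums, cast to `ℂ`). So the sum is the sum for `χ₀` plus the sum for `X'`. Uses: LBN, BCL, IM, B2. -/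
def KUN_stmt : Prop :=
  ∀ (p : ℕ) (M : Ideal (integralClosure ℤ ℂ)), Setup p M → ∀ (G : Type) [Group G] [Finite G]
    (𝒞 : Set (Finset (Subgroup G))) (n : ℤ) (X : Set (G → ℂ)), X ⊆ Irr G →
    (∀ χ' ∈ X, ∀ χ'' ∈ Irr G, Induces M χ'' χ' → χ'' ∈ X) →
    (∀ χ' ∈ X, n ∣ ∑ᶠ C ∈ 𝒞, (-1) ^ (C.card + 1) * ((Nat.card (nrm C) : ℤ) * (lb p M χ' (nrm C) : ℤ))) →
    (∀ N : Subgroup G, BC M N (BX M X N)) ∧
    n ∣ ∑ᶠ C ∈ 𝒞, (-1) ^ (C.card + 1) * ((Nat.card (nrm C) : ℤ) * (ls p (nrm C) (BX M X (nrm C)) : ℤ))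

/-! ## 2. The quotient by a normal abelian `p`-subgroup `R` -/

/-- **KG1** (short to medium; only Mathlib). Groups. `Nat.card (N.comap π) = |R| |N|` (fibres), `p`-groups: `IsPGroup.iff_card` or extension of `p`-groups; `(nz N).comap π = nz (N.comap π)` (`Subgroup.comap_normalizer_eq_of_surjective`); `R ≤ H`: `(H.map π).comap π = H ⊔ R.. = H` (`Subgroup.comap_map_eq_self`).
`IsOp`: if `Q` is a `p`-subgroup of `Gb` normalised by `Gb` then `Q.comap π` is a `p`-subgroup normalised by `G`, so it is `≤ R = (⊥).comap π`. -/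
def KG1_stmt : Prop :=
  ∀ (p : ℕ) [Fact p.Prime] (G Gb : Type) [Group G] [Finite G] [Group Gb] [Finite Gb] (R : Subgroup G)
    (π : G →* Gb), Qn p R π →
    (∀ r ∈ R, ∀ g : G, g * r * g⁻¹ ∈ R) ∧ Nat.card G = Nat.card R * Nat.card Gb ∧
    (∀ N : Subgroup Gb, R ≤ N.comap π ∧ Nat.card (N.comap π) = Nat.card R * Nat.card N ∧
      (IsPGroup p N ↔ IsPGroup p (N.comap π)) ∧ (nz N).comap π = nz (N.comap π)) ∧
    (∀ N N' : Subgroup Gb, N.comap π ≤ N'.comap π ↔ N ≤ N') ∧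
    (∀ H : Subgroup G, R ≤ H → (H.map π).comap π = H) ∧ (⊥ : Subgroup Gb).comap π = R ∧
    (∀ N N' : Subgroup Gb, N' ≤ nz N ↔ N'.comap π ≤ nz (N.comap π)) ∧
    (IsOp p (⊤ : Subgroup G) R → IsOp p (⊤ : Subgroup Gb) ⊥)

open Classical in
/-- **KCH** (short to medium; from KG1). Chains (compare JCH of `helper22/FI3/SpecCQ`, `Pool/Agent/*/FI3/JCH.lean`). `Cb ↦ {Q.comap π | Q ∈ Cb}` is a bijection from the normal chains of `Gb` with smallest term `⊥` onto those of `G` with smallest term `R`. Uses: KG1. -/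
def KCH_stmt : Prop :=
  ∀ (p : ℕ) [Fact p.Prime] (G Gb : Type) [Group G] [Finite G] [Group Gb] [Finite Gb] (R : Subgroup G)
    (π : G →* Gb), Qn p R π →
    Set.BijOn (fun Cb : Finset (Subgroup Gb) => Cb.image (Subgroup.comap π)) {Cb | NCh p ⊤ ⊥ Cb}
      {C | NCh p ⊤ R C} ∧
    ∀ Cb : Finset (Subgroup Gb), (Cb.image (Subgroup.comap π)).card = Cb.card ∧
      (nrm Cb).comap π = nrm (Cb.image (Subgroup.comap π))

/-- **KIN** (short to medium; from JIR). Inflation (compare JIN, `Pool/Agent/*/FI3/JIN.lean`). For `Hb` the restriction of `π` is a surjective homomorphism `Hb.comap π →* Hb` with kernel `R`; JIR (`helper22/FI3/SpecCQ`). For `g ∉ Hb.comap π` `f (π g) = 0`. Given `φ ∈ IrrOn (Hb.comap π)` invariant under `R`: JIR (2) and extension by zero.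
Injective because `π` is surjective. Uses: JIR. -/
def KIN_stmt : Prop :=
  ∀ (p : ℕ) (G Gb : Type) [Group G] [Finite G] [Group Gb] [Finite Gb] (R : Subgroup G)
    (π : G →* Gb), Qn p R π →
    (∀ f f' : Gb → ℂ, (fun g => f (π g)) = (fun g => f' (π g)) → f = f') ∧
    (∀ Hb : Subgroup Gb, ∀ f ∈ IrrOn Hb, (fun g => f (π g)) ∈ IrrOn (Hb.comap π)) ∧
    (∀ Hb : Subgroup Gb, ∀ φ ∈ IrrOn (Hb.comap π), (∀ r ∈ R, ∀ x, φ (r * x) = φ x) →
      ∃ f ∈ IrrOn Hb, (fun g => f (π g)) = φ) ∧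
    ∀ f : Gb → ℂ, ∀ r ∈ R, ∀ x, f (π (r * x)) = f (π x)

open Classical in
/-- **KAV** (short to medium; from EVM, CVF, CCI). Averaging over a normal subgroup `R` of `H`. Proof: let `z x = |R|⁻¹` for `x ∈ R` and `0` otherwise: `CF H z`, `cv z z = z`. EVM (SpecR, second item): for `g ∈ H`: `|R|⁻¹ ∑_{r ∈ R} ψ (g r) = ev ψ z g = cc ψ z * ψ g`, and `g R = R g`, so
`∑_{r ∈ R} ψ (r g) = |R| * cc ψ z * ψ g`. By CCI (2) `cc ψ z * cc ψ z = cc ψ z`, so `cc ψ z` is `0` or `1`. If `ψ` is invariant under `R` the average of `ψ (r g)` is `ψ g` (no EVM needed). If `cc ψ z = 1` then `ψ g` is for all `g ∈ H` the average of the `ψ (r g)`, so `ψ` is invariant under `R` (for `x ∉ H` both sides are `0`).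
For `g ∉ H` both sides are `0`. Uses: EVM, CVF, CCI. -/
def KAV_stmt : Prop :=
  ∀ (G : Type) [Group G] [Finite G] (R H : Subgroup G), R ≤ H → (∀ r ∈ R, ∀ h ∈ H, h * r * h⁻¹ ∈ R) →
    ∀ ψ ∈ IrrOn H, ∀ g : G, ∑ᶠ r ∈ (R : Set G), ψ (r * g) =
      if (∀ r ∈ R, ∀ x, ψ (r * x) = ψ x) then (Nat.card R : ℂ) * ψ g else 0

/-- **KPR** (medium; only Mathlib). `p`-regular elements. (1) Preimage `a` of `y`, `g = a ^ k` with `k = 1` modulo `orderOf y` and `k` divisible by the `p`-part of `orderOf a` (compare JPR of `helper22/FI3/SpecCQ`, `Pool/Agent/helper31/FI3/JPR.lean`). (2) `orderOf (π g)` divides `orderOf g`.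
(3) `R` is abelian and normal. Let `m = orderOf v * orderOf (v * r)`, prime to `p`, `b i = v⁻¹ ^ i * r * v ^ i ∈ R`. `(v r) ^ m = 1 = v ^ m` gives `∏_{i < m} b i = 1` (`(v r)^k = v^k * b (k-1) * .. * b 0`), `b (i + 1) = v⁻¹ * b i * v`, `b m = b 0 = r`. Let `t = ∏_{i < m} (b i) ^ i`. Then
`v⁻¹ * t * v * t⁻¹ = ∏_{i < m} (b (i+1)) ^ i * (b i) ^ (-i) = (b m) ^ (m-1) * ∏_{0 < i < m} (b i)⁻¹ = r ^ (m - 1) * r = r ^ m` (as `∏_{0<i<m} b i = r⁻¹`). With `k m = 1` modulo `|R|`, `s = t ^ k`: `v⁻¹ s v s⁻¹ = r`, so `v r = s v s⁻¹`. -/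
def KPR_stmt : Prop :=
  ∀ (p : ℕ) [Fact p.Prime] (G Gb : Type) [Group G] [Finite G] [Group Gb] [Finite Gb] (R : Subgroup G)
    (π : G →* Gb), Qn p R π →
    (∀ y : Gb, PReg p y → ∃ g : G, PReg p g ∧ π g = y) ∧ (∀ g : G, PReg p g → PReg p (π g)) ∧
    ∀ v : G, PReg p v → ∀ r ∈ R, PReg p (v * r) → ∃ s ∈ R, v * r = s * v * s⁻¹

/-- **KSU** (short to medium; from KPR). Sums over `p`-regular elements. Proof: every `p`-regular `y ∈ Hb` has `p`-regular preimages (KPR (1)), they lie in `Hb.comap π`; the fibre of `v` in the set of the `p`-regular elements is `{v r | r ∈ R, v r p-regular}` (the `g` with `π g = π v`), and its cardinality is the same for all elements of the fibre. Uses: KPR. -/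
def KSU_stmt : Prop :=
  ∀ (p : ℕ) [Fact p.Prime] (G Gb : Type) [Group G] [Finite G] [Group Gb] [Finite Gb] (R : Subgroup G)
    (π : G →* Gb), Qn p R π → ∀ (Hb : Subgroup Gb) (F : Gb → ℂ),
    ∑ᶠ y ∈ {y : Gb | y ∈ Hb ∧ PReg p y}, F y = ∑ᶠ v ∈ {v : G | v ∈ Hb.comap π ∧ PReg p v},
      F (π v) / ({r : G | r ∈ R ∧ PReg p (v * r)}.ncard : ℂ)

/-- **KLE** (medium; from KIN, KAV, KPR, KSU, BR0, SFC, LBN, B2). `l(S)` for the quotient. Proof: `H = Hb.comap π`. For `v ∈ H` `p`-regular let `A v = ∑_{f ∈ dn π Hb S} f (π v) * f (π v)⁻¹`. By KIN it is the sum over the `ψ ∈ S` which are invariant under `R` of `ψ v * ψ v⁻¹`, by KAV it is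
`|R|⁻¹ ∑_{ψ ∈ S} ψ v * ∑_{r ∈ R} ψ (r v⁻¹) = |R|⁻¹ ∑_{r ∈ R} Sf S v (v * r)` (`ψ (r v⁻¹) = ψ (v r⁻¹)⁻¹`, replace `r` by `r⁻¹`). If `v r` is not `p`-regular `Sf S v (v r) = 0` by BR0 (`y = 1`, `v`; `y'`, `v'` the `p`-part and the `p`-regular part of `v r`, `y' ≠ 1`); if it is, `v r = s v s⁻¹` (KPR (3)) and
`Sf S v (v r) = Sf S v v` (SFC). So `A v = |R|⁻¹ c(v) Sf S v v`, `c(v) = #{r ∈ R | v r p-regular} ≥ 1`. By KSU `∑_{y ∈ Hb, p-regular} ∑_f f y * f y⁻¹ = ∑_{v ∈ H, p-regular} A v / c(v) = |R|⁻¹ ∑_v Sf S v v`, and `|H| = |R| |Hb|` (KG1): the two traces are equal. `BC`: `dn` is a union of blocks of `Hb`: let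
`f ∈ dn`, `f' ∈ IrrOn Hb` with the same central characters on integral class functions of `Hb`; for `z` with `CF H z`, integral, `cc (f ∘ π) z = cc f zb`, `zb y = ∑_{π g = y} z g` (a class function of `Hb` with integral values); so `f' ∘ π ∈ S` by `BC.closed`. Then `ls` by LBN. Uses: KIN, KAV, KPR, KSU, KG1, BR0, SFC, LBN, B2. -/
def KLE_stmt : Prop :=
  ∀ (p : ℕ) (M : Ideal (integralClosure ℤ ℂ)), Setup p M → ∀ (G Gb : Type) [Group G] [Finite G]
    [Group Gb] [Finite Gb] (R : Subgroup G) (π : G →* Gb), Qn p R π → ∀ (Hb : Subgroup Gb)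
    (S : Set (G → ℂ)), BC M (Hb.comap π) S →
    BC M Hb (dn π Hb S) ∧ ls p Hb (dn π Hb S) = ls p (Hb.comap π) S

/-- **KMG** (short to medium). Class sums (compare JMG). The map `π` from the class of `g` onto the class of `π g` is surjective and all its fibres have the same number `m` of elements (conjugation by `a` maps the fibre over `π g` onto the fibre over `π (a g a⁻¹)`). -/
def KMG_stmt : Prop :=
  ∀ (G Gb : Type) [Group G] [Finite G] [Group Gb] [Finite Gb] (π : G →* Gb), Function.Surjective π →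
    ∀ g : G, ∃ m : ℕ, 1 ≤ m ∧ ∀ f : Gb → ℂ, omega (fun x => f (π x)) g = m * omega f (π g)

/-- **KBL** (short to medium; from KMG, FMX, C7, C8 of DI, IM of DC). Blocks. (1) `omega (f ∘ π) g - omega (f' ∘ π) g = m * (omega f (π g) - omega f' (π g))` with the same `m` (KMG), in `M`. (2) Let `Induces M (f ∘ π) χ`. There is `χ' ∈ Irr Gb` with `Induces M f χ'`: if `Cb = {⊥}` then `nrm Cb = ⊤`, `χ' = f`; otherwise FMX (`helper58/FI/SpecC`),
C7 and C8. By (1) `Induces M (f ∘ π) (χ' ∘ π)`, so `Induces M (χ' ∘ π) χ` (IM of DC). Conversely (1) and transitivity. (Compare JBL, `Pool/Agent/*/FI3/JBL.lean`.) Uses: KMG, FMX, C7, C8, IM. -/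
def KBL_stmt : Prop :=
  ∀ (p : ℕ) (M : Ideal (integralClosure ℤ ℂ)), Setup p M → ∀ (G Gb : Type) [Group G] [Finite G]
    [Group Gb] [Finite Gb] (R : Subgroup G) (π : G →* Gb), Qn p R π →
    (∀ f f' : Gb → ℂ, Induces M f f' → Induces M (fun g => f (π g)) (fun g => f' (π g))) ∧
    ∀ (χ : G → ℂ) (Cb : Finset (Subgroup Gb)), NCh p ⊤ ⊥ Cb → ∀ f ∈ IrrOn (nrm Cb),
      (Induces M (fun g => f (π g)) χ ↔
        ∃ χ' ∈ {χ' : Gb → ℂ | χ' ∈ Irr Gb ∧ Induces M (fun g => χ' (π g)) χ}, Induces M f χ')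

/-! ## 3. Defect groups of the blocks of the quotient -/

/-- **KUP** (short to medium; from CFA, CUQ of DR, IDM, EXP, CCI of GR, QRS). A character above `ψ`. Proof: if no `φ ∈ IrrOn L` is over `ψ`, then by CFA `mt K φ ψ = 0` for all `φ ∈ IrrOn L` (CFA: `OverE K L φ ψ₁ e`; a conjugate of `ψ₁` is not `ψ`, otherwise `φ` is over `ψ`; CCJ of DR and orthogonality B2). The function
`x ↦ ∑_{φ ∈ IrrOn L} φ 1 * φ x` is `|L|` at `1` and `0` elsewhere (`eS L (IrrOn L) = dl` on class functions: EXP, IDM, CCI; or IDM last item), so `∑_φ φ 1 * mt K φ ψ = |L| ψ 1 / |K| ≠ 0`, a contradiction. Uses: CFA, CCJ, B2, IDM, EXP, CCI. -/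
def KUP_stmt : Prop :=
  ∀ (G : Type) [Group G] [Finite G] (K L : Subgroup G), K ≤ L → L ≤ nz K → ∀ ψ ∈ IrrOn K,
    ∃ φ ∈ IrrOn L, ∃ e : ℕ, 0 < e ∧ OverE K L φ ψ e

/-- **KHT** (short to medium; model: the proof of HTZ, `Pool/Agent/helper64/FI/HTZ.lean`). Degrees and the defect group. Proof: `cc χ (cls ⊤ x) = (number of conjugates of x) * χ x / χ 1`, the number of conjugates is `|G| / |C_G(x)|`, `|C_G(x)|_p = |D|` (`DefL.card`), `χ x` is integral. If `v_p (χ 1) + v_p |D| < v_p |G|` then this is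
`p` times an element of the local ring (`IntAt`), so `InM`, a contradiction to `DefL.ne`. Uses: B2 or IF. -/
def KHT_stmt : Prop :=
  ∀ (p : ℕ) (M : Ideal (integralClosure ℤ ℂ)), Setup p M → ∀ (G : Type) [Group G] [Finite G],
    ∀ χ ∈ Irr G, ∀ (D : Subgroup G) (x : G), DefL p M ⊤ χ D x → ∀ n : ℕ, χ 1 = n →
    padicValNat p (Nat.card G) ≤ padicValNat p n + padicValNat p (Nat.card D)

/-- **OPD** is stated in `DefsK` (short to medium; from CFA, FOV, CON, TPR). Proof: `R` is normal in `G`, `cz R ≤ ⊤`. `χ ∈ IrrOn ⊤` (TPR). CFA (`K = cz R`, `L = ⊤`): `ψ ∈ IrrOn (cz R)`, `OverE (cz R) ⊤ χ ψ e`. FOV (`P = R`, `N = ⊤`): `Induces M ψ χ` (`Induces M χ χ` is clear). CON (`helper59/FI/SpecB2`): `g` with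
`R.map (conj g) ≤ D`, and `R.map (conj g) = R` as `R` is normal.

**KDG** (medium; from DEX, TPR, DG2 of OB, KUP, KBL, KIN, KG1, CFA, FOV, CON, KHT). The defect groups of the blocks of the quotient are abelian and not trivial. Proof: DEX for `Gb`, `⊤`, `χ'`: `DefL p M ⊤ χ' D' x'`, so `DefAt p M χ' D' x'` (both say the same; `Cz ⊤ y = centralizer {y}`,
`omega = cc .. (cls ⊤ ..)`: CLS, TPR) and `DefectGroup p M χ' D'`. DG2: `θ' ∈ IrrOn (cz D')` with `Induces M θ' χ'`. KUP (`K = cz D'`, `L = nz D'`): `φ ∈ IrrOn (nz D')` over `θ'`; FOV for `Gb` (`P = D'`, `N = nz D'`): `Induces M φ χ'`. Let `X = D'.comap π` (a `p`-group, KG1), `f = φ ∘ π ∈ IrrOn (nz X)` (KIN, KG1),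
`Induces M f χ` (KBL (1) and the hypothesis). CFA for `cz X ≤ nz X` and FOV (`P = X`, `N = nz X`): `ψ ∈ IrrOn (cz X)` with `Induces M ψ χ`. CON: `X.map (conj g) ≤ D`, so `X` is abelian, and so is `D' = X.map π`. If `D' = ⊥`, then by KHT `v_p |Gb| ≤ v_p (χ' 1)`; `χ' ∘ π ∈ Blk M χ ⊤` (TPR, KIN with `Hb = ⊤`) has defect `a`, `|D| = p ^ a`:
`a = v_p |G| - v_p (χ' 1) ≤ v_p |G| - v_p |Gb| = v_p |R|` (KG1), so `|D| ≤ |R|`, and `R ≤ D` gives `R = D`, a contradiction. `CentreOut p 1 D'`: any `z ∈ D'`, `z ≠ 1` (`D'` abelian, `⁅D', D'⁆ = ⊥`). -/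
def KDG_stmt : Prop :=
  ∀ (p : ℕ) (M : Ideal (integralClosure ℤ ℂ)), Setup p M → ∀ (G Gb : Type) [Group G] [Finite G]
    [Group Gb] [Finite Gb] (D : Subgroup G) (x : G) (θ χ : G → ℂ), Rt p M D x θ χ →
    (∀ ψ ∈ Blk M χ ⊤, ∀ a : ℕ, Nat.card D = p ^ a → Defect p ⊤ ψ a) →
    ∀ (R : Subgroup G) (π : G →* Gb), Qn p R π → R ≤ D → R ≠ D → ∀ χ' ∈ Irr Gb,
    Induces M (fun g => χ' (π g)) χ →
    ∃ D' : Subgroup Gb, Pool.Agent.MAP.DefectGroup p M χ' D' ∧ Pool.Agent.MAPW.CentreOut p 1 D'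

/-! ## 4. Assembly

**KQ** (statement in `DefsK`; short to medium; from KG1, KCH, KLE, KIN, KBL, KDG, KDV, KUN, BCL, IM, LBN). Proof: `R ≤ D`, so `R` is abelian; `R` is normal (`IsOp`). `Gb = G ⧸ R`, `π = QuotientGroup.mk' R`, `Qn p R π`. `X = {χ' ∈ Irr Gb | Induces M (χ' ∘ π) χ}` (closed: KBL (1), IM). For `Cb` with `NCh p ⊤ ⊥ Cb`, `N = nrm Cb`:
`dn π N (Blk M χ (N.comap π)) = BX M X N` (KIN: `f ∘ π ∈ IrrOn (N.comap π)`; KBL (2)), so `lb p M χ (N.comap π) = ls p N (BX M X N)` (KLE, BCL). By KCH (`finsum_mem_eq_of_bijOn`) and KG1 (cardinalities) the sum is `|R|` times the sum over the `Cb` of `(-1)^(|Cb|+1) |N| ls p N (BX M X N)`, which is divisible by `p |Gb|`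
(KUN for the set of the normal chains of `Gb`, `n = p |Gb|`; KDV, KDG; `IsOp p ⊤ ⊥` for `Gb` by KG1). `|R| |Gb| = |G|`. -/

end Pool.Agent.FI4
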