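import Pool.Agent.helper70.FI.AllQ1
import Pool.Agent.helper59.FI.AllB
import Pool.Agent.helper58.FI.AllC
import Pool.Agent.helper22.OB.All
import Pool.Agent.helper84.FI3.JT0
import Pool.Agent.helper42.FI3.JIR
import Pool.Agent.helper6.FI4.LBN
import Pool.Agent.helper87.FI4.OPD
import Pool.Agent.helper98.FI4.KRA
import Pool.Agent.helper68.FI4.KRB
import Pool.Agent.helper20.FI4.KRG
import Pool.Agent.helper97.FI4.KDV
import Pool.Agent.helper61.FI4.KUN
import Pool.Agent.helper70.FI4.KG1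
import Pool.Agent.helper21.FI4.KCH
import Pool.Agent.helper27.FI4.KIN
import Pool.Agent.helper20.FI4.KAV
import Pool.Agent.helper27.FI4.KPR
import Pool.Agent.helper56.FI4.KSU
import Pool.Agent.helper20.FI4.KLE
import Pool.Agent.helper31.FI4.KMG
import Pool.Agent.helper26.FI4.KBL
import Pool.Agent.helper58.FI4.KUP
import Pool.Agent.helper33.FI4.KHT
import Pool.Agent.helper93.FI4.KDG
import Pool.Agent.helper48.FI4.KQ

/-!
# Project fi4, block K: all statements without hypotheses (helper70)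

`kKRG`, `kLLN`, `kDV4` are the output statements of `helper59/FI4/Defs`; `kOPD` of `DefsK`.
-/

set_option autoImplicit false

namespace Pool.Agent.FI4.AllK

open Pool.Agent.helper58.DC Pool.Agent.DI Pool.Agent.GR Pool.Agent.OB Pool.Agent.DR Pool.Agent.FI Pool.Agent.FI3 Pool.Agent.GR.All

theorem kJT0 : JT0_stmt := JT0 AllC.cFT0 dIF
theorem kJIR : JIR_stmt := JIR
theorem kLBN : LBN_stmt := LBN AllQ1.qQIR dBCL dB2
theorem kOPD : OPD_stmt := OPD Pool.Agent.DR.All.rCFA AllC.cFOV AllB.dCON AllA.dTPR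
theorem kKRA : KRA_stmt := KRA dB2 dPPT dBR2 kLBN
theorem kKRB : KRB_stmt := KRB kKRA dQPR
theorem kKRG : KRG_stmt := KRG kKRB AllC.cFNO kLBN
theorem kKDV : KDV_stmt := KDV kKRG kJT0 kLBN
theorem kKUN : KUN_stmt := KUN kLBN dBCL dIM dB2
theorem kKG1 : KG1_stmt := KG1 
theorem kKCH : KCH_stmt := KCH kKG1
theorem kKIN : KIN_stmt := KIN kJIR
theorem kKAV : KAV_stmt := KAV AllR.rEVM dCVF dCCI
theorem kKPR : KPR_stmt := KPR 
theorem kKSU : KSU_stmt := KSU kKPR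
theorem kKLE : KLE_stmt := KLE kKIN kKAV kKPR kKSU kKG1 dBR0 dSFC kLBN dB2
theorem kKMG : KMG_stmt := KMG 
theorem kKBL : KBL_stmt := KBL kKMG AllC.cFMX Pool.Agent.DR.AllDI.iC7 Pool.Agent.DR.AllDI.iC8 dIM
theorem kKUP : KUP_stmt := KUP Pool.Agent.DR.All.rCFA Pool.Agent.DR.All.rCCJ dB2 Pool.Agent.DR.All.rCRE Pool.Agent.DR.All.rCUQ
theorem kKHT : KHT_stmt := KHT dB2
theorem kKDG : KDG_stmt := KDG AllA.dDEX AllA.dCLS AllA.dTPR Pool.Agent.OB.All.uDG2 kKUP kKBL kKIN kKG1 Pool.Agent.DR.All.rCFA AllC.cFOV AllB.dCON kKHT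
theorem kKQ : KQ_stmt := KQ kKG1 kKCH kKLE kKIN kKBL kKDG kKDV kKUN dBCL dIM kLBN
theorem kLLN : LLN_stmt := LLN_of kLBN
theorem kDV4 : DV4_stmt := DV4_of kLBN kKQ

end Pool.Agent.FI4.AllK
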