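import Pool.Agent.helper70.FI4.SpecK

set_option autoImplicit false

namespace Pool.Agent.FI4

open Pool.Agent.helper58.DC Pool.Agent.DI Pool.Agent.GR Pool.Agent.OB Pool.Agent.DR Pool.Agent.FI Pool.Agent.FI3

section

variable {p : ℕ} {G Gb : Type} [Group G] [Group Gb] {R : Subgroup G} {π : G →* Gb}

theorem KG1_le (h : Qn p R π) (N : Subgroup Gb) : R ≤ N.comap π := by
  intro r hr
  rw [Subgroup.mem_comap, (h.ker r).2 hr]
  exact N.one_mem

theorem KG1_card [Finite G] [Finite Gb] (h : Qn p R π) (N : Subgroup Gb) :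
    Nat.card (N.comap π) = Nat.card R * Nat.card N := by
  set f : (N.comap π) →* Gb := π.comp (Subgroup.subtype _) with hf
  have hk : f.ker = R.subgroupOf (N.comap π) := by
    ext x
    rw [MonoidHom.mem_ker, Subgroup.mem_subgroupOf]
    exact h.ker _
  have hr : f.range = N := by
    ext y
    rw [MonoidHom.mem_range]
    constructor
    · rintro ⟨x, rfl⟩
      exact x.2
    · intro hy
      obtain ⟨a, rfl⟩ := h.sur y
      exact ⟨⟨a, hy⟩, rfl⟩
  have e1 := Subgroup.card_mul_index f.ker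
  rw [Subgroup.index_ker, hr, hk] at e1
  rw [← e1, Nat.card_congr (Subgroup.subgroupOfEquivOfLe (KG1_le h N)).toEquiv]

theorem KG1_mono (h : Qn p R π) (N N' : Subgroup Gb) : N.comap π ≤ N'.comap π ↔ N ≤ N' := by
  constructor
  · intro hN y hy
    obtain ⟨a, rfl⟩ := h.sur y
    exact hN hy
  · intro hN x hx
    exact hN hx

theorem KG1_nz (h : Qn p R π) (N : Subgroup Gb) : (nz N).comap π = nz (N.comap π) := by
  ext x
  unfold nz
  rw [Subgroup.mem_comap, Subgroup.mem_normalizer_iff, Subgroup.mem_normalizer_iff]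
  constructor
  · intro hx g
    change π g ∈ N ↔ π (x * g * x⁻¹) ∈ N
    rw [map_mul, map_mul, map_inv]
    exact hx _
  · intro hx y
    obtain ⟨a, rfl⟩ := h.sur y
    have := hx a
    change π a ∈ N ↔ π (x * a * x⁻¹) ∈ N at this
    rwa [map_mul, map_mul, map_inv] at this

end

theorem KG1 : KG1_stmt := by
  intro p _ G Gb _ _ _ _ R π h
  have hp : p.Prime := Fact.out
  obtain ⟨k, hk⟩ := IsPGroup.iff_card.1 h.pg
  have hbot : (⊥ : Subgroup Gb).comap π = R := by
    ext x
    rw [Subgroup.mem_comap, Subgroup.mem_bot]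
    exact h.ker x
  have hpg : ∀ N : Subgroup Gb, IsPGroup p N ↔ IsPGroup p (N.comap π) := by
    intro N
    have h3 := KG1_card h N
    rw [IsPGroup.iff_card, IsPGroup.iff_card, h3, hk]
    constructor
    · rintro ⟨n, hn⟩
      exact ⟨k + n, by rw [hn, pow_add]⟩
    · rintro ⟨m, hm⟩
      have hd : Nat.card N ∣ p ^ m := Dvd.intro_left _ hm
      obtain ⟨j, -, hj⟩ := (Nat.dvd_prime_pow hp).1 hd
      exact ⟨j, hj⟩
  have hnn : ∀ N N' : Subgroup Gb, N' ≤ nz N ↔ N'.comap π ≤ nz (N.comap π) := by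
    intro N N'
    rw [← KG1_nz h N, KG1_mono h]
  refine ⟨?_, ?_, ?_, KG1_mono h, ?_, hbot, hnn, ?_⟩
  · intro r hr g
    rw [← h.ker, map_mul, map_mul, (h.ker r).2 hr, mul_one, ← map_mul, mul_inv_cancel, map_one]
  · have h1 := KG1_card h ⊤
    rw [Subgroup.comap_top] at h1
    rw [Subgroup.card_top, Subgroup.card_top] at h1
    exact h1
  · intro N
    exact ⟨KG1_le h N, KG1_card h N, hpg N, KG1_nz h N⟩
  · intro H hH
    ext x
    rw [Subgroup.mem_comap, Subgroup.mem_map]
    constructor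
    · rintro ⟨y, hy, hyx⟩
      have h1 : π (y⁻¹ * x) = 1 := by
        rw [map_mul, map_inv, hyx, inv_mul_cancel]
      have h2 : y⁻¹ * x ∈ H := hH ((h.ker _).1 h1)
      have h3 := H.mul_mem hy h2
      rwa [mul_inv_cancel_left] at h3
    · intro hx
      exact ⟨x, hx, rfl⟩
  · intro hR
    refine ⟨⟨bot_le, IsPGroup.of_bot, ?_⟩, ?_⟩
    · intro x _
      change x ∈ nz (⊥ : Subgroup Gb)
      unfold nz
      rw [Subgroup.mem_normalizer_iff]
      intro y
      rw [Subgroup.mem_bot, Subgroup.mem_bot]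
      constructor
      · rintro rfl
        rw [mul_one, mul_inv_cancel]
      · intro hy
        have h1 := congrArg (fun z => x⁻¹ * z * x) hy
        simpa [mul_assoc] using h1
    · rintro Q ⟨_, hQp, hQn⟩
      have h1 : Q.comap π ≤ R := by
        refine hR.2 ⟨le_top, (hpg Q).1 hQp, ?_⟩
        have h2 := (hnn Q ⊤).1 hQn
        rwa [Subgroup.comap_top] at h2
      rw [← hbot, KG1_mono h] at h1
      exact h1

end Pool.Agent.FI4
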